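import Pool.Agent.MP_ed9623_an.H77.SpecX

/-! The defect is the boundary value of the vorticity. -/

open MeasureTheory Filter Topology Set
open scoped ContDiff

namespace Pool.Agent.MP_ed9623_an.H77

open H64

namespace Cid

theorem cd_sl {F : ST → ℝ} {n : ℕ} (hF : ContDiff ℝ n F) (t : ℝ) :
    ContDiff ℝ n fun p : P => F (t, p) := hF.comp (contDiff_const.prodMk contDiff_id)

theorem pd_sl {F : ST → ℝ} (hF : ContDiff ℝ (1 : ℕ) F) (t : ℝ) (i : Fin 2) (p : P) :
    pd (ee i) (fun p : P => F (t, p)) p = pd ((0, ee i) : ST) F (t, p) := by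
  refine HD.pd_eq ?_ (cdg_diff (cd_sl hF t) le_rfl p)
  have h := HD.of_diff (e := ((0, ee i) : ST)) (cdg_diff hF le_rfl ((t, p) : ST))
  unfold HD at h ⊢
  have e : ∀ s : ℝ, ((t, p) : ST) + s • ((0, ee i) : ST) = (t, p + s • ee i) := fun s => by
    simp
  simpa only [e] using h

/-- For a divergence-free field the Dirichlet form only sees the two curls. -/
theorem di_eq {v ζ : Fin 2 → P → ℝ} {d : Fin 2 → Fin 2 → P → ℝ} (h : VF (fun _ => 0) v d)
    (hζ : ∀ j, Test univ (ζ j)) :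
    di (fun _ => 0) d ζ = ∫ x, (d 1 0 x - d 0 1 x) * crl (fun _ => 0) ζ x := by
  have w : ∀ j i, WD univ (ee i) (v j) (d j i) := fun j i => ((H1O.zero_iff.1 (h.h1 j)).2 i).2
  have I : ∀ j i k l, Integrable fun x => d j i x * pd (ee k) (ζ l) x := fun j i k l =>
    ((h.h1 j).md i).int_mul ((hζ l).pd _).m2
  have s : ∀ j l, ∫ x, d j 0 x * pd (ee 1) (ζ l) x = ∫ x, d j 1 x * pd (ee 0) (ζ l) x :=
    fun j l => by
      have a := w j 0 _ ((hζ l).pd (ee 1))
      have b := w j 1 _ ((hζ l).pd (ee 0))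
      rw [pd_comm_sm (hζ l).1] at a
      linarith
  have z : ∀ k l, (∫ x, d 0 0 x * pd (ee k) (ζ l) x) + ∫ x, d 1 1 x * pd (ee k) (ζ l) x = 0 :=
    fun k l => by
      rw [← integral_add (I 0 0 k l) (I 1 1 k l)]
      refine integral_eq_zero_of_ae (h.dv.mono fun p hp => ?_)
      simp only [← add_mul, hp, zero_mul, Pi.zero_apply]
  have e : (fun x => (d 1 0 x - d 0 1 x) * crl (fun _ => 0) ζ x) = fun x =>
      (d 1 0 x * pd (ee 0) (ζ 1) x - d 1 0 x * pd (ee 1) (ζ 0) x)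
        - (d 0 1 x * pd (ee 0) (ζ 1) x - d 0 1 x * pd (ee 1) (ζ 0) x) := funext fun x => by
    simp only [crl, dd_zero]; ring
  have i1 : Integrable fun x => d 1 0 x * pd (ee 0) (ζ 1) x - d 1 0 x * pd (ee 1) (ζ 0) x :=
    (I 1 0 0 1).sub (I 1 0 1 0)
  have i2 : Integrable fun x => d 0 1 x * pd (ee 0) (ζ 1) x - d 0 1 x * pd (ee 1) (ζ 0) x :=
    (I 0 1 0 1).sub (I 0 1 1 0)
  rw [e, integral_sub i1 i2, integral_sub (I 1 0 0 1) (I 1 0 1 0),
    integral_sub (I 0 1 0 1) (I 0 1 1 0)]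
  simp only [di, Fin.sum_univ_two, dd_zero]
  linarith [s 1 0, s 0 1, z 0 0, z 1 1]

end Cid

open Cid in
theorem rowCid : OfCid := by
  intro hC hI ρ x τ γ r t₀ ε ε' t c w W z hρ hCh hw hR ht hε' hz H
  have hε : 0 < ε := Metric.pos_of_mem_ball ht
  have hΩ : IsOpen {x | ρ x < 0} := isOpen_lt hρ continuous_const
  have hNo : IsOpen ({x | ρ x < 0} ∩ Metric.ball x ε) := hΩ.inter Metric.isOpen_ball
  obtain ⟨-, c2, -⟩ := hC _ hNo
  obtain ⟨hv, hn⟩ := mem_VZ.1 hw
  have h2 : ∀ j, ContDiff ℝ (2 : ℕ) (W j) := fun j => cdg_le (hR.c6 j) (by norm_num)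
  have h1 : ∀ j, ContDiff ℝ (1 : ℕ) (W j) := fun j => cdg_le (hR.c6 j) (by norm_num)
  have sA : ∀ j i, ∀ᵐ p, p ∈ {x | ρ x < 0} ∩ Metric.ball x ε →
      pd ((0, ee i) : ST) (W j) (t, p) = gj (w t) j i p := fun j i => by
    have a := c2 (fun p => W j (t, p)) (vl (w t) j) (gj (w t) j i) (ee i) (cd_sl (h1 j) t)
      (m2_gj _ _ _) (hR.ae j t ht) (((H1O.zero_iff.1 (hv.h1 j)).2 i).2.mono (subset_univ _))
    simpa only [pd_sl (h1 j)] using a
  have cv : Continuous fun p : P => vo W (t, p) :=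
    (cd_sl ((contDiff_pd e1 (h2 1)).sub (contDiff_pd e2 (h2 0))) t).continuous
  refine sub_eq_zero.1 (hI _ x τ γ r (min ε ε') (fun p => vo W (t, p) - c) (fun j p => -z j p) hΩ
    hCh (lt_min hε hε') (cv.sub continuous_const) (fun j => (hz j).neg) fun ζ hζ => ?_)
  have b1 : Metric.ball x (min ε ε') ⊆ Metric.ball x ε := Metric.ball_subset_ball (min_le_left _ _)
  have a := H ζ fun j => (hζ j).mono (Metric.ball_subset_ball (min_le_right _ _))
  have tc := test_crl Gam.zero hζ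
  have i1 : Integrable fun p => vo W (t, p) * crl (fun _ => 0) ζ p :=
    (cv.mul tc.ct).integrable_of_hasCompactSupport tc.2.1.mul_left
  have i2 : Integrable fun p => c * crl (fun _ => 0) ζ p :=
    (continuous_const.mul tc.ct).integrable_of_hasCompactSupport tc.2.1.mul_left
  have e : di (fun _ => 0) (gj (w t)) ζ
      = ∫ q in {x | ρ x < 0}, vo W (t, q) * crl (fun _ => 0) ζ q := by
    rw [di_eq hv fun j => (hζ j).top, ← integral_indicator hΩ.measurableSet]
    refine integral_congr_ae ?_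
    filter_upwards [sA 1 0, sA 0 1, hn (1, some 0), hn (0, some 1)] with p p1 p2 p3 p4
    by_cases hp : p ∈ {x | ρ x < 0}
    · rw [indicator_of_mem hp]
      by_cases hb : p ∈ Metric.ball x (min ε ε')
      · rw [← p1 ⟨hp, b1 hb⟩, ← p2 ⟨hp, b1 hb⟩]
        rfl
      · rw [tc.off hb, mul_zero, mul_zero]
    · rw [indicator_of_notMem hp]
      have q3 : gj (w t) 1 0 p = 0 := p3 hp
      have q4 : gj (w t) 0 1 p = 0 := p4 hp
      rw [q3, q4, sub_zero, zero_mul]
  have n : ip (fun j p => -z j p) ζ = -ip z ζ := by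
    simp only [ip, neg_mul, integral_neg, Finset.sum_neg_distrib]
  simp only [sub_mul]
  rw [integral_sub i1.integrableOn i2.integrableOn, integral_const_mul, ← e, n]
  linarith

end Pool.Agent.MP_ed9623_an.H77
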